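import Mathlib

/-!
# Composite values of `k ^ n * (k ^ n - 1) - 1`
-/

namespace Pool.Agent.H89.PV

open Chebyshev
open Nat (lcmUpto)

/-- a prime divisor of `k ^ 2 + k - 1` divides the value -/
theorem dvd_value {p k n : ℕ} (hp : p.Prime) (hk : 2 ≤ k) (hd : p ∣ k ^ 2 + k - 1)
    (hn : p - 1 ∣ n + 1) (hn0 : n ≠ 0) : p ∣ k ^ n * (k ^ n - 1) - 1 := by
  have : Fact p.Prime := ⟨hp⟩
  have hkn : 2 ≤ k ^ n := hk.trans (Nat.le_self_pow hn0 k)
  have h1 : 1 ≤ k ^ n := by omega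
  have h2 : 1 ≤ k ^ n * (k ^ n - 1) := Nat.mul_pos (by omega) (by omega)
  have h3 : 1 ≤ k ^ 2 + k := by nlinarith
  rw [← ZMod.natCast_eq_zero_iff] at hd ⊢
  rw [Nat.cast_sub h3] at hd
  rw [Nat.cast_sub h2, Nat.cast_mul, Nat.cast_sub h1]
  push_cast at hd ⊢
  set x : ZMod p := (k : ZMod p) with hx
  have e : x * (x + 1) = 1 := by linear_combination hd
  have hx0 : x ≠ 0 := by
    intro h
    rw [h, zero_mul] at e
    exact zero_ne_one e
  have e2 : x ^ (n + 1) = 1 := by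
    obtain ⟨d, hd⟩ := hn
    rw [hd, pow_mul, ZMod.pow_card_sub_one_eq_one hx0, one_pow]
  have e3 : x ^ n = x + 1 := by
    have h : x ^ n = x ^ n * (x * (x + 1)) := by rw [e, mul_one]
    rw [h, ← mul_assoc, ← pow_succ, e2, one_mul]
  rw [e3]
  linear_combination e

theorem value_gt {k n : ℕ} (hk : 2 ≤ k) (hn : 2 ≤ n) :
    k ^ 2 + k - 1 < k ^ n * (k ^ n - 1) - 1 := by
  have h1 : k ^ 2 ≤ k ^ n := Nat.pow_le_pow_right (by omega) hn
  have h2 : k ^ 2 * (k ^ 2 - 1) ≤ k ^ n * (k ^ n - 1) := Nat.mul_le_mul h1 (by omega)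
  obtain ⟨m, rfl⟩ : ∃ m, k = m + 2 := ⟨k - 2, by omega⟩
  have h3 : (m + 2) ^ 2 - 1 = (m + 1) * (m + 3) := by
    have : (m + 2) ^ 2 = (m + 1) * (m + 3) + 1 := by ring
    omega
  rw [h3] at h2
  have h4 : (m + 2) ^ 2 + (m + 2) < (m + 2) ^ 2 * ((m + 1) * (m + 3)) := by
    nlinarith [sq_nonneg m, mul_nonneg (sq_nonneg m) (Nat.zero_le m)]
  omega

theorem dvd_lcmUpto {d m : ℕ} (h1 : 1 ≤ d) (h2 : d ≤ m) : d ∣ lcmUpto m :=
  Finset.dvd_lcm (f := id) (Finset.mem_Icc.2 ⟨h1, h2⟩)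

/-- the prime which is used for the base `k` -/
theorem exists_prime {k K : ℕ} (hk : 2 ≤ k) (hK : k ≤ K) :
    ∃ p, p.Prime ∧ p ∣ k ^ 2 + k - 1 ∧ p - 1 ∣ 3 * lcmUpto (K + 2) := by
  have h5 : 5 ≤ k ^ 2 + k - 1 := by
    have : 4 ≤ k ^ 2 := by nlinarith
    omega
  by_cases hp : (k ^ 2 + k - 1).Prime
  · refine ⟨_, hp, dvd_refl _, ?_⟩
    have h1 : k ^ 2 + k - 1 - 1 = (k - 1) * (k + 2) := by
      obtain ⟨m, rfl⟩ : ∃ m, k = m + 2 := ⟨k - 2, by omega⟩
      have h : (m + 2) ^ 2 + (m + 2) = (m + 1) * (m + 4) + 2 := by ring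
      have h' : m + 2 - 1 = m + 1 := by omega
      have h'' : m + 2 + 2 = m + 4 := by omega
      rw [h', h'']
      omega
    rw [h1, ← Nat.gcd_mul_lcm]
    refine mul_dvd_mul ?_ ?_
    · have h2 : Nat.gcd (k - 1) (k + 2) ∣ (k + 2) - (k - 1) :=
        Nat.dvd_sub (Nat.gcd_dvd_right _ _) (Nat.gcd_dvd_left _ _)
      have h3 : (k + 2) - (k - 1) = 3 := by omega
      rwa [h3] at h2
    · exact Nat.lcm_dvd (dvd_lcmUpto (by omega) (by omega)) (dvd_lcmUpto (by omega) (by omega))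
  · refine ⟨(k ^ 2 + k - 1).minFac, Nat.minFac_prime (by omega), Nat.minFac_dvd _, ?_⟩
    have h1 := Nat.minFac_sq_le_self (by omega) hp
    have h2 : (k ^ 2 + k - 1).minFac ≤ k := by
      by_contra h
      have h3 : (k + 1) ^ 2 ≤ (k ^ 2 + k - 1).minFac ^ 2 := Nat.pow_le_pow_left (by omega) 2
      have h4 : (k + 1) ^ 2 = k ^ 2 + 2 * k + 1 := by ring
      omega
    have h3 := (Nat.minFac_prime (n := k ^ 2 + k - 1) (by omega)).two_le
    exact (dvd_lcmUpto (by omega) (by omega)).trans (dvd_mul_left _ _)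

/-- all values with a base up to `K` are composite -/
theorem composite {K n k : ℕ} (hn : 2 ≤ n) (hL : 3 * lcmUpto (K + 2) ∣ n + 1) (hk : 2 ≤ k)
    (hK : k ≤ K) : ¬ (k ^ n * (k ^ n - 1) - 1).Prime := by
  intro hP
  obtain ⟨p, hp, h1, h2⟩ := exists_prime hk hK
  have h3 := dvd_value hp hk h1 (h2.trans hL) (by omega)
  have h0 : 4 ≤ k ^ 2 := by nlinarith
  have h4 : p ≤ k ^ 2 + k - 1 := Nat.le_of_dvd (by omega) h1
  have h5 := value_gt hk hn
  rcases (Nat.dvd_prime hP).1 h3 with h | h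
  · exact hp.one_lt.ne' h
  · omega

open Filter Asymptotics in
/-- the growth of the least common multiple -/
theorem exists_large {c : ℝ} (hc : c < 1 / Real.log 4) :
    ∀ᶠ x : ℝ in atTop, c * (Real.log 3 + (Real.log 4 * x + 2 * √x * Real.log x)) < x - 1 := by
  have h4 : 0 < Real.log 4 := Real.log_pos (by norm_num)
  have h3 : 0 < Real.log 3 := Real.log_pos (by norm_num)
  have hd : 0 < 1 - c * Real.log 4 := by
    have := (lt_div_iff₀ h4).1 hc
    linarith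
  set δ := 1 - c * Real.log 4 with hδ
  have h1 : (fun x : ℝ => Real.log x) =o[atTop] fun x => x ^ (1 / 2 : ℝ) :=
    isLittleO_log_rpow_atTop (by norm_num)
  have hC : 0 < δ / (4 * (|c| + 1)) := by positivity
  have h2 := h1.def hC
  have h5 : ∀ᶠ x : ℝ in atTop, (|c| * Real.log 3 + 2) * 2 / δ < x := eventually_gt_atTop _
  filter_upwards [h2, h5, eventually_gt_atTop (1 : ℝ)] with x hx1 hx2 hx3
  have hx0 : 0 < x := by linarith
  have hlog : 0 < Real.log x := Real.log_pos hx3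
  rw [← Real.sqrt_eq_rpow, Real.norm_of_nonneg hlog.le,
    Real.norm_of_nonneg (Real.sqrt_nonneg _)] at hx1
  have hs : √x * √x = x := Real.mul_self_sqrt hx0.le
  have hs0 := Real.sqrt_nonneg x
  have e1 : 2 * √x * Real.log x ≤ δ / (2 * (|c| + 1)) * x := by
    have : √x * Real.log x ≤ √x * (δ / (4 * (|c| + 1)) * √x) :=
      mul_le_mul_of_nonneg_left hx1 hs0
    have e : √x * (δ / (4 * (|c| + 1)) * √x) = δ / (4 * (|c| + 1)) * x := by
      linear_combination (δ / (4 * (|c| + 1))) * hs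
    rw [e] at this
    have e' : δ / (2 * (|c| + 1)) * x = 2 * (δ / (4 * (|c| + 1)) * x) := by
      field_simp
      ring
    rw [e']
    linarith
  have e2 : |c| * (2 * √x * Real.log x) ≤ δ / 2 * x := by
    have hp : 0 ≤ 2 * √x * Real.log x := by positivity
    have e3 : |c| * (2 * √x * Real.log x) ≤ (|c| + 1) * (δ / (2 * (|c| + 1)) * x) :=
      mul_le_mul (by linarith) e1 hp (by positivity)
    have e4 : (|c| + 1) * (δ / (2 * (|c| + 1)) * x) = δ / 2 * x := by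
      field_simp
    linarith
  have e5 : |c| * Real.log 3 + 2 < δ / 2 * x := by
    rw [div_lt_iff₀ hd] at hx2
    linarith
  have hc1 : c ≤ |c| := le_abs_self c
  have e6 : c * (2 * √x * Real.log x) ≤ |c| * (2 * √x * Real.log x) :=
    mul_le_mul_of_nonneg_right hc1 (by positivity)
  have e7 : c * Real.log 3 ≤ |c| * Real.log 3 := mul_le_mul_of_nonneg_right hc1 h3.le
  have e8 : c * (Real.log 3 + (Real.log 4 * x + 2 * √x * Real.log x)) =
      c * Real.log 3 + c * (2 * √x * Real.log x) + (1 - δ) * x := by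
    rw [hδ]
    ring
  rw [e8]
  linarith

/-- infinitely many exponents for which all bases up to `c * log n` give composite values -/
theorem exists_exponent {c : ℝ} (hc : c < 1 / Real.log 4) (N : ℕ) :
    ∃ n, N < n ∧ ∀ k : ℕ, 2 ≤ k → (k : ℝ) ≤ c * Real.log n →
      ¬ (k ^ n * (k ^ n - 1) - 1).Prime := by
  obtain ⟨X, hX⟩ := Filter.eventually_atTop.1 (exists_large hc)
  obtain ⟨K, hK⟩ := exists_nat_ge (max X (N + 2 : ℝ))
  have hK1 : X ≤ K := (le_max_left _ _).trans hK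
  have hK2 : N + 2 ≤ K := by exact_mod_cast (le_max_right _ _).trans hK
  have h0 := Nat.lcmUpto_pos (K + 2)
  have h1 : K + 2 ≤ lcmUpto (K + 2) := Nat.le_of_dvd h0 (dvd_lcmUpto (by omega) le_rfl)
  refine ⟨3 * lcmUpto (K + 2) - 1, by omega, ?_⟩
  intro k hk hkc
  have hn : 3 * lcmUpto (K + 2) ∣ (3 * lcmUpto (K + 2) - 1) + 1 := by
    rw [Nat.sub_add_cancel (by omega)]
  refine composite (K := K) (by omega) hn hk ?_
  by_contra hkK
  rw [not_le] at hkK
  have hc0 : 0 < c := by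
    by_contra h
    rw [not_lt] at h
    have h2 : 0 ≤ Real.log ((3 * lcmUpto (K + 2) - 1 : ℕ) : ℝ) := Real.log_natCast_nonneg _
    have h3 : (2 : ℝ) ≤ k := by exact_mod_cast hk
    nlinarith
  have h4 : Real.log ((3 * lcmUpto (K + 2) - 1 : ℕ) : ℝ) ≤
      Real.log 3 + ψ ((K + 2 : ℕ) : ℝ) := by
    rw [psi_eq_log_lcmUpto, ← Real.log_mul (by norm_num) (by positivity)]
    refine Real.log_le_log ?_ ?_
    · have : 0 < 3 * lcmUpto (K + 2) - 1 := by omega
      exact_mod_cast this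
    · have : 3 * lcmUpto (K + 2) - 1 ≤ 3 * lcmUpto (K + 2) := Nat.sub_le _ _
      exact_mod_cast this
  have h5 : ψ ((K + 2 : ℕ) : ℝ) ≤ Real.log 4 * ((K + 2 : ℕ) : ℝ) +
      2 * √((K + 2 : ℕ) : ℝ) * Real.log ((K + 2 : ℕ) : ℝ) :=
    psi_le (by exact_mod_cast (by omega : 1 ≤ K + 2))
  have h6 := hX ((K + 2 : ℕ) : ℝ) (by push_cast; linarith)
  have h7 : (K : ℝ) + 1 ≤ k := by exact_mod_cast hkK
  have h8 : c * Real.log ((3 * lcmUpto (K + 2) - 1 : ℕ) : ℝ) ≤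
      c * (Real.log 3 + (Real.log 4 * ((K + 2 : ℕ) : ℝ) +
      2 * √((K + 2 : ℕ) : ℝ) * Real.log ((K + 2 : ℕ) : ℝ))) :=
    mul_le_mul_of_nonneg_left (by linarith) hc0.le
  have h9 : ((K + 2 : ℕ) : ℝ) - 1 = K + 1 := by push_cast; ring
  linarith

end Pool.Agent.H89.PV

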